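import Pool.Agent.R280.FS.RF
import Pool.Agent.R280.FS.KM
import Pool.Agent.R280.FS.DM
import Pool.Agent.R280.FS.SQ
import Pool.Agent.R280.FS.TB
import Pool.Agent.R280.FS.WC
import Pool.Agent.R280.FS.SP
import Pool.Agent.R280.FS.NB
import Pool.Agent.R280.FS.Fin

/-!
# MP_c73427_an, Q1 (full answer: no such space; the negated form is proved)

If the free locally convex space `L(X)` of a Tychonoff space `X` is multi-reflexive, then it is a
Schwartz space.
-/

set_option autoImplicit false

open Topology

universe u v w

namespace Pool.Agent.Results.MP_c73427_an.MultiReflexiveSchwartz

open Pool.Agent.R280.FS

/-- Let `(L, i)` be the free locally convex space of the topological space `X` (`i : X → L` is a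
topological embedding into the Hausdorff locally convex space `L`, and every continuous map of `X`
into a Hausdorff locally convex space extends uniquely to a continuous linear map). If `L` is
linearly and topologically isomorphic to a linear subspace of a product of reflexive Banach spaces,
then every continuous linear map of `L` into a Banach space maps some neighbourhood of zero to a
set with compact closure. -/
theorem result (X : Type u) [TopologicalSpace X] [T35Space X] (L : Type u) [AddCommGroup L]
    [Module ℝ L] [TopologicalSpace L] [IsTopologicalAddGroup L] [ContinuousSMul ℝ L]
    [LocallyConvexSpace ℝ L] [T2Space L] (i : X → L) (hi : IsFreeLCS X L i)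
    (hM : MultiReflexive.{u, v, w} L) : IsSchwartz L :=
  Fin.main (TB.main KM.main RF.main DM.main SQ.main) WC.main SP.main NB.main X L i hi hM

end Pool.Agent.Results.MP_c73427_an.MultiReflexiveSchwartz
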